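import Mathlib
import Pool.Agent.H188R3.LD10

set_option autoImplicit false

namespace Pool.Agent.Results.MP_7ad892_an.ApproxLocalDerivations

open Pool.Agent.H188R3.LD

/-- Every bounded approximately local derivation of a semicrossed product `C_0(Ω) ×_σ ℤ⁺` is a
derivation. -/
theorem result : ∀ (Ω : Type) [TopologicalSpace Ω] [T2Space Ω] [LocallyCompactSpace Ω]
    (σ : CocompactMap Ω Ω) (T : Type) [NonUnitalCStarAlgebra T] (R : ToeplitzRep σ T),
    IsUniversal R → ∀ δ : tensorAlg R →L[ℂ] tensorAlg R, IsApproxLocal δ → IsDeriv δ := by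
  intro Ω _ _ _ σ T _ R hU δ hδ
  exact main hU δ hδ

end Pool.Agent.Results.MP_7ad892_an.ApproxLocalDerivations
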